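import Mathlib
import Pool.Agent.Lead.FgDefs
import Pool.Agent.Lead.Fg3

namespace Pool.Agent.Results.MP_190226_lc.Q1
open Pool.Agent.Lead.FgDefs MeasureTheory

theorem result {X : Type} [MeasurableSpace X] [StandardBorelSpace X] (μ : Measure X)
    [IsProbabilityMeasure μ] (T₀ : X ≃ᵐ X) (h : MeasurePreserving T₀ μ μ) :
    @MeasurableSet _ (borel (FullGroup μ T₀ × FullGroup μ T₀)) (Conj μ T₀) :=
  Pool.Agent.Lead.Fg3.main h

end Pool.Agent.Results.MP_190226_lc.Q1
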